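import Pool.Agent.Lib.MP_5349a4_pr.M.Iface3
import Pool.Agent.Lib.MP_5349a4_pr.M.Base

/-!
# Real estimates for the module STAGE
-/

set_option autoImplicit false
open MeasureTheory Set
open scoped ENNReal NNReal

namespace Pool.Agent.Lib.MP_5349a4_pr.H77

theorem stage_real (u c C K Cw x M h : ℝ) (hu : 0 < u) (hu1 : u ≤ 1) (hc : 0 < c) (hC : 0 ≤ C)
    (hK : 0 ≤ K) (hCw : 0 ≤ Cw) (hx : 1 ≤ x) (hh : h = x ^ (-1 - u / 24))
    (hM : c * h ^ (1 - u / 3) ≤ M) (q0 : ℝ) (hq : q0 = x * M * x ^ (-(3 * u / 50))) :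
    0 < M ∧ 0 < q0 ∧
    C * ((K * x ^ (u / 400)) * (x + 1) ^ (u / 400) *
      (1 / ((x + 1) * M) + q0 / ((x + 1) * M) + h / M) + M * (Cw * x ^ (1 - u / 6)) / q0)
      + 2 * x * h ≤ (C * (2 * K * (2 / c + 1) + Cw) + 2) * x ^ (-(u / 25)) ∧
    c * x ^ (u / 400) ≤ x ^ (-(u / 6)) * q0 := by
  have x0 : 0 < x := by linarith
  have hh0 : 0 < h := by rw [hh]; exact Real.rpow_pos_of_pos x0 _
  have hM0 : 0 < M := lt_of_lt_of_le (mul_pos hc (Real.rpow_pos_of_pos hh0 _)) hM
  have hq0 : 0 < q0 := by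
    rw [hq]; exact mul_pos (mul_pos x0 hM0) (Real.rpow_pos_of_pos x0 _)
  -- x M ≥ c x^(7u/24)
  have hxM : c * x ^ (7 * u / 24) ≤ x * M := by
    calc c * x ^ (7 * u / 24) ≤ c * x ^ (1 + (-1 - u / 24) * (1 - u / 3)) := by
          apply mul_le_mul_of_nonneg_left _ hc.le
          apply Real.rpow_le_rpow_of_exponent_le hx
          nlinarith [sq_nonneg u]
      _ = x * (c * h ^ (1 - u / 3)) := by
          rw [hh, ← Real.rpow_mul x0.le, Real.rpow_add x0, Real.rpow_one]; ring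
      _ ≤ x * M := mul_le_mul_of_nonneg_left hM x0.le
  have hhM : h / M ≤ x ^ (-(u / 3)) / c := by
    rw [div_le_div_iff₀ hM0 hc]
    have h1 : h = h ^ (1 - u / 3) * h ^ (u / 3) := by
      rw [← Real.rpow_add hh0]; ring_nf; exact (Real.rpow_one _).symm
    have h2 : h ^ (u / 3) ≤ x ^ (-(u / 3)) := by
      rw [hh, ← Real.rpow_mul x0.le]
      apply Real.rpow_le_rpow_of_exponent_le hx
      nlinarith [sq_nonneg u]
    calc h * c = (c * h ^ (1 - u / 3)) * h ^ (u / 3) := by nth_rewrite 1 [h1]; ring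
      _ ≤ M * x ^ (-(u / 3)) := by
          apply mul_le_mul hM h2 (Real.rpow_nonneg hh0.le _) hM0.le
      _ = x ^ (-(u / 3)) * M := by ring
  have hinv : 1 / ((x + 1) * M) ≤ x ^ (-(7 * u / 24)) / c := by
    rw [div_le_div_iff₀ (by positivity) hc, one_mul]
    have h1 : x ^ (-(7 * u / 24)) * (c * x ^ (7 * u / 24)) = c := by
      rw [Real.rpow_neg x0.le]
      have : x ^ (7 * u / 24) ≠ 0 := (Real.rpow_pos_of_pos x0 _).ne'
      field_simp
    calc c = x ^ (-(7 * u / 24)) * (c * x ^ (7 * u / 24)) := h1.symm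
      _ ≤ x ^ (-(7 * u / 24)) * ((x + 1) * M) := by
          apply mul_le_mul_of_nonneg_left _ (Real.rpow_nonneg x0.le _)
          nlinarith
  have hqM : q0 / ((x + 1) * M) ≤ x ^ (-(3 * u / 50)) := by
    rw [div_le_iff₀ (by positivity), hq]
    have : 0 < x ^ (-(3 * u / 50)) := Real.rpow_pos_of_pos x0 _
    nlinarith [mul_pos this hM0]
  have hV : M * (Cw * x ^ (1 - u / 6)) / q0 = Cw * x ^ (-(u / 6) + 3 * u / 50) := by
    rw [hq, Real.rpow_add x0, Real.rpow_neg x0.le (3 * u / 50), sub_eq_add_neg, Real.rpow_add x0,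
      Real.rpow_one]
    have : x ^ (3 * u / 50) ≠ 0 := (Real.rpow_pos_of_pos x0 _).ne'
    field_simp
  have hx1 : (x + 1) ^ (u / 400) ≤ 2 * x ^ (u / 400) := by
    calc (x + 1) ^ (u / 400) ≤ (2 * x) ^ (u / 400) :=
          Real.rpow_le_rpow (by linarith) (by linarith) (by positivity)
      _ = 2 ^ (u / 400) * x ^ (u / 400) := Real.mul_rpow (by norm_num) x0.le
      _ ≤ 2 ^ (1 : ℝ) * x ^ (u / 400) := by
          apply mul_le_mul_of_nonneg_right _ (Real.rpow_nonneg x0.le _)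
          apply Real.rpow_le_rpow_of_exponent_le (by norm_num)
          linarith
      _ = 2 * x ^ (u / 400) := by rw [Real.rpow_one]
  refine ⟨hM0, hq0, ?_, ?_⟩
  · set y := x ^ (-(u / 25)) with hy
    have e0 : 0 < y := Real.rpow_pos_of_pos x0 _
    have mono : ∀ t : ℝ, t ≤ -(u / 25) → x ^ t ≤ y := fun t ht =>
      Real.rpow_le_rpow_of_exponent_le hx ht
    have key1 : x ^ (u / 400) * x ^ (u / 400) * x ^ (-(7 * u / 24)) ≤ y := by
      rw [← Real.rpow_add x0, ← Real.rpow_add x0]; exact mono _ (by linarith)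
    have key2 : x ^ (u / 400) * x ^ (u / 400) * x ^ (-(3 * u / 50)) ≤ y := by
      rw [← Real.rpow_add x0, ← Real.rpow_add x0]; exact mono _ (by linarith)
    have key3 : x ^ (u / 400) * x ^ (u / 400) * x ^ (-(u / 3)) ≤ y := by
      rw [← Real.rpow_add x0, ← Real.rpow_add x0]; exact mono _ (by linarith)
    have key4 : x ^ (-(u / 6) + 3 * u / 50) ≤ y := mono _ (by linarith)
    have key5 : x * h ≤ y := by
      have : x * h = x ^ (-(u / 24)) := by
        rw [hh]
        nth_rewrite 1 [← Real.rpow_one x]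
        rw [← Real.rpow_add x0]; ring_nf
      rw [this]; exact mono _ (by linarith)
    set p := x ^ (u / 400) with hp
    have p0 : 0 < p := Real.rpow_pos_of_pos x0 _
    have hS : 1 / ((x + 1) * M) + q0 / ((x + 1) * M) + h / M
        ≤ x ^ (-(7 * u / 24)) / c + x ^ (-(3 * u / 50)) + x ^ (-(u / 3)) / c := by linarith
    have hS0 : 0 ≤ 1 / ((x + 1) * M) + q0 / ((x + 1) * M) + h / M := by positivity
    have h1 : (K * p) * (x + 1) ^ (u / 400) *
        (1 / ((x + 1) * M) + q0 / ((x + 1) * M) + h / M) ≤ 2 * K * (2 / c + 1) * y := by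
      calc (K * p) * (x + 1) ^ (u / 400) *
          (1 / ((x + 1) * M) + q0 / ((x + 1) * M) + h / M)
          ≤ (K * p) * (2 * p) * (x ^ (-(7 * u / 24)) / c + x ^ (-(3 * u / 50))
              + x ^ (-(u / 3)) / c) := by
            apply mul_le_mul _ hS hS0 (by positivity)
            exact mul_le_mul_of_nonneg_left hx1 (by positivity)
        _ = 2 * K * ((p * p * x ^ (-(7 * u / 24))) / c + p * p * x ^ (-(3 * u / 50))
              + (p * p * x ^ (-(u / 3))) / c) := by ring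
        _ ≤ 2 * K * (y / c + y + y / c) := by
            apply mul_le_mul_of_nonneg_left _ (by positivity)
            gcongr
        _ = 2 * K * (2 / c + 1) * y := by ring
    rw [hV]
    calc C * (K * p * (x + 1) ^ (u / 400) * (1 / ((x + 1) * M) + q0 / ((x + 1) * M) + h / M) +
          Cw * x ^ (-(u / 6) + 3 * u / 50)) + 2 * x * h
        ≤ C * (2 * K * (2 / c + 1) * y + Cw * y) + 2 * y := by
          have a1 : Cw * x ^ (-(u / 6) + 3 * u / 50) ≤ Cw * y := mul_le_mul_of_nonneg_left key4 hCw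
          have a2 := mul_le_mul_of_nonneg_left (add_le_add h1 a1) hC
          linarith
      _ = (C * (2 * K * (2 / c + 1) + Cw) + 2) * y := by ring
  · calc c * x ^ (u / 400) ≤ c * x ^ (-(u / 6) + (7 * u / 24) + -(3 * u / 50)) := by
          apply mul_le_mul_of_nonneg_left _ hc.le
          apply Real.rpow_le_rpow_of_exponent_le hx
          linarith
      _ = x ^ (-(u / 6)) * ((c * x ^ (7 * u / 24)) * x ^ (-(3 * u / 50))) := by
          rw [Real.rpow_add x0, Real.rpow_add x0]; ring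
      _ ≤ x ^ (-(u / 6)) * (x * M * x ^ (-(3 * u / 50))) := by
          apply mul_le_mul_of_nonneg_left _ (Real.rpow_nonneg x0.le _)
          exact mul_le_mul_of_nonneg_right hxM (Real.rpow_nonneg x0.le _)
      _ = x ^ (-(u / 6)) * q0 := by rw [hq]

/-- merging two exponentials -/
theorem two_exp (c1 c2 y : ℝ) (h1 : 0 < c1) (h2 : 0 < c2) (hy : 2 / min c1 c2 ≤ y) :
    Real.exp (-(c1 * y)) + Real.exp (-(c2 * y)) ≤ Real.exp (-(min c1 c2 / 2 * y)) := by
  have hm : 0 < min c1 c2 := lt_min h1 h2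
  have hy' : 2 ≤ min c1 c2 * y := by rwa [div_le_iff₀' hm] at hy
  have y0 : 0 < y := lt_of_lt_of_le (by positivity) hy
  have a1 : Real.exp (-(c1 * y)) ≤ Real.exp (-(min c1 c2 * y)) := by
    apply Real.exp_le_exp.2
    have := mul_le_mul_of_nonneg_right (min_le_left c1 c2) y0.le
    linarith
  have a2 : Real.exp (-(c2 * y)) ≤ Real.exp (-(min c1 c2 * y)) := by
    apply Real.exp_le_exp.2
    have := mul_le_mul_of_nonneg_right (min_le_right c1 c2) y0.le
    linarith
  have a3 : Real.exp (-(min c1 c2 * y)) = Real.exp (-(min c1 c2 / 2 * y)) *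
      Real.exp (-(min c1 c2 / 2 * y)) := by
    rw [← Real.exp_add]; ring_nf
  have a4 : Real.exp (-(min c1 c2 / 2 * y)) ≤ 1 / 2 := by
    have : Real.exp (-(min c1 c2 / 2 * y)) ≤ Real.exp (-1) := by
      apply Real.exp_le_exp.2; linarith
    refine this.trans ?_
    rw [Real.exp_neg, ← one_div]
    apply one_div_le_one_div_of_le (by norm_num)
    have := Real.add_one_le_exp (1 : ℝ)
    linarith
  have a5 : 0 < Real.exp (-(min c1 c2 / 2 * y)) := Real.exp_pos _
  nlinarith

/-- the intensity of the sprinkled points -/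
theorem lam2_real (d : ℕ) (hd : 1 ≤ d) (e : ℝ) (he : 0 < e) (he1 : e ≤ 1) :
    e / 4 ≤ 1 - 1 / (1 + e / 2) ^ d := by
  have h1 : 1 + e / 2 ≤ (1 + e / 2) ^ d := by
    calc 1 + e / 2 = (1 + e / 2) ^ 1 := (pow_one _).symm
      _ ≤ (1 + e / 2) ^ d := pow_le_pow_right₀ (by linarith) hd
  have h2 : 1 / (1 + e / 2) ^ d ≤ 1 / (1 + e / 2) := one_div_le_one_div_of_le (by linarith) h1
  have h3 : 1 / (1 + e / 2) ≤ 1 - e / 4 := by
    rw [div_le_iff₀ (by linarith)]
    nlinarith
  linarith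

end Pool.Agent.Lib.MP_5349a4_pr.H77
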