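import Pool.Agent.Lib.MP_5349a4_pr.M.H77.StageSmp
import Pool.Agent.Lib.MP_5349a4_pr.M.H77.StageReal

/-!
# Module STAGE (8.3)
-/

set_option autoImplicit false
open MeasureTheory Set
open scoped ENNReal NNReal

namespace Pool.Agent.Lib.MP_5349a4_pr.H77

theorem exists_large (u a b : ℝ) (hu : 0 < u) (ha : 0 < a) (N : ℕ) :
    ∃ M : ℕ, 1 ≤ M ∧ N ≤ M ∧ ∀ x : ℝ, (M : ℝ) ≤ x → x ^ (-1 - u / 24) ≤ a ∧ b ≤ x ^ (u / 400) := by
  have h1 : Filter.Tendsto (fun x : ℝ => x ^ (-(1 + u / 24))) Filter.atTop (nhds 0) :=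
    tendsto_rpow_neg_atTop (by positivity)
  have h2 : Filter.Tendsto (fun x : ℝ => x ^ (u / 400)) Filter.atTop Filter.atTop :=
    tendsto_rpow_atTop (by positivity)
  have h3 := (h1.eventually (ge_mem_nhds ha)).and (h2.eventually (Filter.eventually_ge_atTop b))
  obtain ⟨x0, hx0⟩ := Filter.eventually_atTop.1 h3
  refine ⟨max (max 1 N) ⌈x0⌉₊, ?_, ?_, ?_⟩
  · exact le_trans (le_max_left _ _) (le_max_left _ _)
  · exact le_trans (le_max_right _ _) (le_max_left _ _)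
  · intro x hx
    have : x0 ≤ x := by
      refine (Nat.le_ceil x0).trans (le_trans ?_ hx)
      exact_mod_cast le_max_right _ _
    have h4 := hx0 x this
    refine ⟨?_, h4.2⟩
    rw [show -1 - u / 24 = -(1 + u / 24) by ring]
    exact h4.1

theorem stage (hSTAT : StatStatement) (hSPR : SprStatement) (hSMP3 : Smp3Statement)
    (hDENS : DensStatement) (hWETV : WetVStatement) (hMAG : MagStatement) (hMAGP : MagPStatement)
    (hINVD : InvDStatement) (hINVM : InvMStatement) (hGENF : GenFStatement)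
    (hGVOL : GVolStatement) (hSUPER : SuperStatement) (hPROB : ProbStatement)
    (hMRESTR : MRestrStatement) (hMOPS : MOpsStatement) (hMSUM : MSumStatement)
    (hCONM : ConMStatement) (hCLB : ClbStatement) : StageStatement := by
  intro d lam κ A hcrit
  have hκ := hcrit.hκ
  have hd1 : 1 ≤ d := by
    have h1 := hcrit.hd
    have : 1 ≤ κ ^ 2 := Nat.one_le_pow _ _ hκ
    omega
  have hκ' : (1 : ℝ) ≤ (κ : ℝ) := by exact_mod_cast hκ
  have hκ0 : (0 : ℝ) < (κ : ℝ) := by linarith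
  obtain ⟨u, hu⟩ : ∃ u : ℝ, u = 1 / (κ : ℝ) := ⟨_, rfl⟩
  have hu0 : 0 < u := by rw [hu]; positivity
  have hu1 : u ≤ 1 := by rw [hu, div_le_one hκ0]; exact hκ'
  have eu : ∀ a : ℝ, a ≠ 0 → 1 / (a * (κ : ℝ)) = u / a := by
    intro a ha; rw [hu]; field_simp
  obtain ⟨C1, h01, hC1, hh01, hh01', hst⟩ := hSTAT d lam κ A hcrit
  obtain ⟨c, h02, hc, hh02, hh02', hmag⟩ := hMAG d lam κ A hcrit
  obtain ⟨K, hK1, hK⟩ := cover d
  obtain ⟨c1, M1, hc1, hdens⟩ := hDENS d lam (1 / (400 * (κ : ℝ))) hd1 (by positivity)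
    (by rw [div_le_one (by positivity)]; linarith)
  obtain ⟨Cw, hCw, hwet⟩ := hWETV d κ hd1 hκ
  have hlam : (0 : ℝ) < (lam : ℝ) := hcrit.hlam
  have hcR : (0 : ℝ) < (c : ℝ) := hc
  have hc2 : (0 : ℝ) < (lam : ℝ) * c / 4 := by positivity
  set c2 : ℝ := (lam : ℝ) * c / 4 with hc2def
  have hh0 : (0 : ℝ) < min (h01 : ℝ) (h02 : ℝ) := lt_min hh01 hh02
  obtain ⟨M, hM1, hM2, hM⟩ := exists_large u (min (h01 : ℝ) (h02 : ℝ)) (2 / min c1 c2) hu0 hh0 M1
  have hKR : (1 : ℝ) ≤ (K : ℝ) := by exact_mod_cast hK1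
  refine ⟨C1 * (2 * K * (2 / c + 1) + Cw) + 2, min c1 c2 / 2, M, by positivity, ?_, ?_⟩
  · have := lt_min hc1 hc2; linarith
  intro m0 k L hm0 hL
  have hm01 : 1 ≤ m0 := hM1.trans hm0
  obtain ⟨m, hm⟩ : ∃ m : ℕ, m = 2 ^ k * m0 := ⟨_, rfl⟩
  obtain ⟨n, hn⟩ : ∃ n : ℕ, n = 2 ^ (k + 1) * m0 := ⟨_, rfl⟩
  have hnm : n = 2 * m := by rw [hn, hm, pow_succ]; ring
  have hm0m : m0 ≤ m := by rw [hm]; exact Nat.le_mul_of_pos_left m0 (by positivity)
  have hm1 : 1 ≤ m := hm01.trans hm0m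
  obtain ⟨x, hx⟩ : ∃ x : ℝ, x = (m : ℝ) := ⟨_, rfl⟩
  have hx1 : 1 ≤ x := by rw [hx]; exact_mod_cast hm1
  have hx0 : 0 < x := by linarith
  have hMx : (M : ℝ) ≤ x := by rw [hx]; exact_mod_cast hm0.trans hm0m
  obtain ⟨hxa, hxb⟩ := hM x hMx
  obtain ⟨e, he⟩ : ∃ e : ℝ, e = x ^ (-(u / 6)) := ⟨_, rfl⟩
  have he0 : 0 < e := by rw [he]; exact Real.rpow_pos_of_pos hx0 _
  have he1 : e ≤ 1 := by
    rw [he]; apply Real.rpow_le_one_of_one_le_of_nonpos hx1; linarith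
  obtain ⟨r', hr'⟩ : ∃ r' : ℝ, r' = 1 + e := ⟨_, rfl⟩
  obtain ⟨r1, hr1⟩ : ∃ r1 : ℝ, r1 = 1 + e / 2 := ⟨_, rfl⟩
  obtain ⟨h, hh⟩ : ∃ h : ℝ≥0, h = Real.toNNReal (x ^ (-1 - u / 24)) := ⟨_, rfl⟩
  have hhR : (h : ℝ) = x ^ (-1 - u / 24) := by
    rw [hh, Real.coe_toNNReal _ (Real.rpow_nonneg hx0.le _)]
  have hhpos : 0 < h := by
    rw [← NNReal.coe_pos, hhR]; exact Real.rpow_pos_of_pos hx0 _
  have hhle1 : h ≤ h01 := by
    rw [← NNReal.coe_le_coe, hhR]; exact hxa.trans (min_le_left _ _)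
  have hhle2 : h ≤ h02 := by
    rw [← NNReal.coe_le_coe, hhR]; exact hxa.trans (min_le_right _ _)
  have hh1 : h ≤ 1 := hhle1.trans hh01'
  -- magnetization
  have hMagle : Mag d lam 1 h ≤ 1 := (hMAGP d lam 1 h hd1 (by norm_num) hh1).2.1
  have hMagtop : Mag d lam 1 h ≠ ∞ := (hMagle.trans_lt ENNReal.one_lt_top).ne
  obtain ⟨Mh, hMh⟩ : ∃ Mh : ℝ, Mh = (Mag d lam 1 h).toReal := ⟨_, rfl⟩
  have hMhlow : (c : ℝ) * (h : ℝ) ^ (1 - u / 3) ≤ Mh := by
    have h1 := (hmag h hhpos hhle2).1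
    rw [eu 3 (by norm_num)] at h1
    rw [hMh]
    exact (ENNReal.ofReal_le_iff_le_toReal hMagtop).1 h1
  obtain ⟨q0, hq0⟩ : ∃ q0 : ℝ, q0 = x * Mh * x ^ (-(3 * u / 50)) := ⟨_, rfl⟩
  obtain ⟨hMh0, hq0pos, hest, hspr⟩ := stage_real u c C1 K Cw x Mh h hu0 hu1 hcR hC1.le
    (by linarith) hCw.le hx1 hhR hMhlow q0 hq0
  -- the radius L'
  obtain ⟨L0, hL0⟩ := hst r1 r' h (m + 1) (by rw [hr1]; linarith) (by rw [hr1, hr']; linarith)
    (by rw [hr']; linarith) hhpos hhle1 (by omega)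
  obtain ⟨L', hL'⟩ : ∃ L' : ℝ, L' = max L0 L := ⟨_, rfl⟩
  have hL0L' : L0 ≤ L' := by rw [hL']; exact le_max_left _ _
  have hLL' : L ≤ L' := by rw [hL']; exact le_max_right _ _
  have hLn : 2 * (n : ℝ) + 2 ≤ L := by rw [hn]; exact hL
  have hnR : (n : ℝ) = 2 * x := by rw [hnm, hx]; push_cast; ring
  have hLm : 2 * (m : ℝ) + 2 ≤ L := by rw [hnR] at hLn; rw [← hx]; linarith
  rw [hGVOL d lam (thr κ m0) L L' (2 ^ k * m0) hd1 (thr_two κ m0 hm01) (by rw [← hm]; exact hLm)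
      (by rw [← hm]; linarith),
    hGVOL d lam (thr κ m0) L L' (2 ^ (k + 1) * m0) hd1 (thr_two κ m0 hm01)
      (by rw [← hn]; exact hLn) (by rw [← hn]; linarith)]
  -- intensities
  obtain ⟨U, hU⟩ : ∃ U : Set (Eu d), U = bal (0 : Eu d) L' := ⟨_, rfl⟩
  have hUdom : Dom U := by rw [hU]; exact dom_bal _ _
  obtain ⟨lam1, hlam1⟩ : ∃ lam1 : ℝ≥0, lam1 = lamr d lam r1 := ⟨_, rfl⟩
  have hr1p : (1 : ℝ) ≤ r1 ^ d := one_le_pow₀ (by rw [hr1]; linarith)
  have hlam1le : lam1 ≤ lam := by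
    rw [hlam1, lamr]
    apply div_le_self (zero_le)
    rw [← NNReal.coe_le_coe, Real.coe_toNNReal _ (by linarith)]
    exact hr1p
  have hlam1R : (lam1 : ℝ) = lam / r1 ^ d := by
    rw [hlam1, lamr, NNReal.coe_div, Real.coe_toNNReal _ (by linarith)]
  obtain ⟨lam2, hlam2⟩ : ∃ lam2 : ℝ≥0, lam2 = lam - lam1 := ⟨_, rfl⟩
  have hlam2R : (lam : ℝ) * (e / 4) ≤ (lam2 : ℝ) := by
    rw [hlam2, NNReal.coe_sub hlam1le, hlam1R]
    have h1 := lam2_real d hd1 e he0 he1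
    rw [← hr1] at h1
    have : (lam : ℝ) - lam / r1 ^ d = lam * (1 - 1 / r1 ^ d) := by ring
    rw [this]
    exact mul_le_mul_of_nonneg_left h1 hlam.le
  have hsum : leb (lam1 * (1 - h)) U + leb (lam1 * h) U + leb lam2 U = leb lam U := by
    rw [← leb_add, ← leb_add]
    congr 1
    rw [← mul_add, tsub_add_cancel_of_le hh1, mul_one, hlam2, add_tsub_cancel_of_le hlam1le]
  have := finite_leb (lam1 * (1 - h)) hUdom.2
  have := finite_leb (lam1 * h) hUdom.2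
  have := finite_leb lam2 hUdom.2
  have := finite_leb lam hUdom.2
  have := noAtoms_leb hd1 (lam1 * (1 - h)) U
  have := noAtoms_leb hd1 (lam1 * h) U
  have := noAtoms_leb hd1 lam2 U
  have := (hPROB _ (leb (lam1 * (1 - h)) U)).1
  have := (hPROB _ (leb (lam1 * h) U)).1
  have := (hPROB _ (leb lam2 U)).1
  -- the event
  obtain ⟨a, ha⟩ : ∃ a : ℝ, a = x ^ (u / 400) := ⟨_, rfl⟩
  have ha1 : 1 ≤ a := by rw [ha]; exact Real.one_le_rpow hx1 (by positivity)
  obtain ⟨V, hV⟩ : ∃ V : ℝ, V = Cw * x ^ (1 - u / 6) := ⟨_, rfl⟩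
  have hV0 : 0 ≤ V := by rw [hV]; exact mul_nonneg hCw.le (Real.rpow_nonneg hx0.le _)
  obtain ⟨H, hH⟩ : ∃ H : Set (Eu d) → Prop,
      H = HH (thr κ m0) m (ENNReal.ofReal (K * a)) (ENNReal.ofReal V) r' := ⟨_, rfl⟩
  have hHme : ME H := by rw [hH]; exact me_HH hMSUM hINVM _ _ _ _ _
  have hpow6 : ((2 ^ k * m0 : ℕ) : ℝ) ^ (-(1 / (6 * (κ : ℝ)))) = e := by
    rw [← hm, ← hx, eu 6 (by norm_num), he]
  have hpow6' : ((2 ^ k * m0 : ℕ) : ℝ) ^ (1 - 1 / (6 * (κ : ℝ))) = x ^ (1 - u / 6) := by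
    rw [← hm, ← hx, eu 6 (by norm_num)]
  -- general position
  have hnull : PL (leb lam U) {ω | ¬ GenO (pt ω) (0 : Eu d)} = 0 := by
    have : Nontrivial (Eu d) := by
      have : Nonempty (Fin d) := ⟨⟨0, by omega⟩⟩
      infer_instance
    obtain ⟨y, hy⟩ := exists_ne (0 : Eu d)
    have h1 := hGENF d lam U 0 y hd1 hUdom hy.symm
    have h2 : ∀ᵐ ω ∂PL (leb lam U), GenO (pt ω) (0 : Eu d) := by
      filter_upwards [h1] with ω hω
      refine ⟨hω.1, ?_⟩
      have hs : insert (0 : Eu d) (pt ω) ⊆ insert 0 (insert y (pt ω)) := by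
        rintro z (hz | hz)
        · exact Or.inl hz
        · exact Or.inr (Or.inr hz)
      intro a ha b hb c hc e he
      exact hω.2.2 a (hs ha) b (hs hb) c (hs hc) e (hs he)
    exact ae_iff.1 h2
  have hGenm : ME (fun P : Set (Eu d) => ¬ GenO P 0) := by
    have := me_GenO (d := d)
    exact this.compl
  have hgoodn : ME (fun P : Set (Eu d) => H P ∧ ¬ good (thr κ m0) P 0 n) := by
    have h1 := meas_good (d := d) hINVM (thr κ m0) n
    exact hHme.inter h1.compl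
  -- step 1
  have step1 : pgood d lam (thr κ m0) L' m ≤ pgood d lam (thr κ m0) L' n +
      (ENNReal.ofReal (Real.exp (-(c1 * a))) +
        PL (leb lam U) {ω | H (pt ω) ∧ ¬ good (thr κ m0) (pt ω) 0 n}) := by
    have hsub : {ω : Cfg (Eu d) | good (thr κ m0) (pt ω) 0 m} ⊆
        {ω | good (thr κ m0) (pt ω) 0 n} ∪ ({ω | ¬ GenO (pt ω) (0 : Eu d)} ∪
        ({ω | ∃ v ∈ bal (0 : Eu d) (2 * m + 2),
            (m : ℝ) ^ (1 / (400 * (κ : ℝ))) - 1 < ((pt ω ∩ bal v 1).ncard : ℝ)} ∪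
          {ω | H (pt ω) ∧ ¬ good (thr κ m0) (pt ω) 0 n})) := by
      intro ω hω
      by_cases h1 : good (thr κ m0) (pt ω) 0 n
      · exact Or.inl h1
      · by_cases h2 : GenO (pt ω) (0 : Eu d)
        · right; right
          have hω' : good (thr κ m0) (pt ω) 0 (2 ^ k * m0) := by rw [← hm]; exact hω
          rcases good_dec hINVD (a := a) (Cw := Cw) hm01 (by linarith) hK
            (fun P hP hG hg => hwet m0 k P 0 hm01 hP hG hg) (pt_finite ω) h2 hω' with h3 | h3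
          · left
            have e1 : (m : ℝ) ^ (1 / (400 * (κ : ℝ))) = a := by
              rw [eu 400 (by norm_num), ← hx, ha]
            rw [← hm] at h3
            rw [Set.mem_ofPred_eq, e1]
            exact h3
          · right
            refine ⟨?_, h1⟩
            rw [hpow6, hpow6', ← hm, ← hV, ← hr'] at h3
            rw [hH]; exact h3
        · right; left; exact h2
    have hd := hdens m L' (hM2.trans (hm0.trans hm0m))
    rw [← hx, eu 400 (by norm_num), ← ha] at hd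
    rw [← hx, eu 400 (by norm_num), ← ha] at hsub
    rw [← hU] at hd
    unfold pgood
    rw [← hU]
    calc PL (leb lam U) {ω | good (thr κ m0) (pt ω) 0 m} ≤ _ := measure_mono hsub
      _ ≤ _ := measure_union_le _ _
      _ ≤ _ + (_ + _) := by gcongr; exact measure_union_le _ _
      _ ≤ _ + (_ + (_ + _)) := by gcongr; exact measure_union_le _ _
      _ ≤ _ := by
          rw [hnull, zero_add]
          gcongr
  -- step 2: three processes
  obtain ⟨ν, hν⟩ : ∃ ν : Measure (T3 d), ν = (PL (leb (lam1 * (1 - h)) U)).prod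
      ((PL (leb (lam1 * h) U)).prod (PL (leb lam2 U))) := ⟨_, rfl⟩
  have htr : ∀ {A : Set (Eu d) → Prop}, ME A →
      PL (leb lam U) {ω | A (pt ω)} = ν {q | A (un3 q)} := by
    intro A hA
    rw [hν, ← hsum]
    exact transfer hPROB hSUPER hMOPS _ _ _ hA
  have step2 : PL (leb lam U) {ω | H (pt ω) ∧ ¬ good (thr κ m0) (pt ω) 0 n} ≤
      ν {q | H (un3 q) ∧ (CLr r' (un3 q) (inv (un3 q) 0 m)).ncard ≤ n} := by
    rw [htr hgoodn]
    have hsub : {q : T3 d | H (un3 q) ∧ ¬ good (thr κ m0) (un3 q) 0 n} ⊆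
        {q : T3 d | ¬ GenO (un3 q) (0 : Eu d)} ∪
        {q : T3 d | H (un3 q) ∧ (CLr r' (un3 q) (inv (un3 q) 0 m)).ncard ≤ n} := by
      rintro q ⟨h1, h2⟩
      by_cases h3 : GenO (un3 q) (0 : Eu d)
      · right
        refine ⟨h1, ?_⟩
        have h4 : good (thr κ m0) (un3 q) 0 (2 ^ k * m0) := by
          rw [hH] at h1; rw [← hm]; exact h1.1
        have h5 := small_cluster hINVD hm01 (un3_finite q) h3 h4 (by rw [← hn]; exact h2)
        rw [hpow6, ← hr', ← hm, ← hn] at h5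
        exact h5
      · left; exact h3
    have h0 : ν {q | ¬ GenO (un3 q) (0 : Eu d)} = 0 := by
      rw [← htr hGenm]; exact hnull
    calc _ ≤ _ := measure_mono hsub
      _ ≤ _ := measure_union_le _ _
      _ = _ := by rw [h0, zero_add]
  -- step 3: sprinkling
  have hρg : leb (lam1 * h) U ≤ h • (leb (lam1 * (1 - h)) U + leb (lam1 * h) U + leb lam2 U) := by
    rw [hsum]
    unfold leb
    rw [show (h • ((lam : ℝ≥0∞) • (volume : Measure (Eu d)).restrict U))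
      = ((lam * h : ℝ≥0) : ℝ≥0∞) • (volume : Measure (Eu d)).restrict U by
        rw [ENNReal.coe_mul, mul_comm, mul_smul]; rfl]
    intro s
    rw [Measure.smul_apply, Measure.smul_apply, smul_eq_mul, smul_eq_mul]
    gcongr
  have step3 := hSPR d (leb (lam1 * (1 - h)) U) (leb (lam1 * h) U) lam2 U h r1 r' q0 0 m n H hd1
    hUdom (by rw [hr1]; linarith) (by rw [hr1, hr']; linarith) hq0pos.le hρg hHme
  -- step 4: strong Markov and the static lemma
  obtain ⟨B, hB⟩ : ∃ B : ℝ, B = C1 * ((K * x ^ (u / 400)) * (x + 1) ^ (u / 400) *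
      (1 / ((x + 1) * Mh) + q0 / ((x + 1) * Mh) + h / Mh) + Mh * (Cw * x ^ (1 - u / 6)) / q0) :=
    ⟨_, rfl⟩
  have hB0 : 0 ≤ B := by
    rw [hB]
    have : 0 ≤ (h : ℝ) := h.2
    positivity
  have step4 : ν {q | H (un3 q) ∧ volume (nbd r1 (LLs r1 (pt q.1) (pt q.2.1) ∅) ∩
      nbd r' (inv (un3 q) 0 m) ∩ U) < ENNReal.ofReal q0}
      ≤ ENNReal.ofReal B * ν {q | H (un3 q)} := by
    rw [hν, hH]
    refine smp_step hPROB hMRESTR hMOPS hMSUM hCONM hCLB hINVD hINVM hSMP3 _ _ _ _ _ _ _ _ _ _ _ _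
      _ ?_ ?_
    · intro P hP hHP
      have h1 := ((hINVD d P P 0 (lf_finite hP) (lf_finite hP)).2.2.2.1 (thr κ m0) m
        (thr_two κ m0 hm01) hHP.1).1
      rintro z ⟨v, hv, hzv⟩
      have h2 := Metric.mem_closedBall.1 (h1 hv)
      rw [hU, bal, Metric.mem_closedBall]
      have h3 := dist_triangle z v 0
      have h4 : r' ≤ 2 := by rw [hr']; linarith
      linarith
    · intro P hP hHP hW
      obtain ⟨hf, hcard⟩ := finite_of_HH hHP
      have h1 := (hINVD d P P 0 (lf_finite hP) (lf_finite hP)).2.2.2.1 (thr κ m0) m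
        (thr_two κ m0 hm01) hHP.1
      have hcoe : (hf.toFinset : Set (Eu d)) = inv P 0 m := hf.coe_toFinset
      have h2 := hL0 L' hf.toFinset (K * a) q0 (wet P 0 m) hL0L'
        (by rw [← hcard, Set.ncard_eq_toFinset_card _ hf])
        (by
          rw [hcoe]
          refine h1.1.trans ?_
          apply Metric.closedBall_subset_closedBall
          push_cast; linarith)
        (by nlinarith)
        (by rw [hcoe]; exact dens_of_HH (by positivity) hHP) hq0pos hW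
        (by rw [hcoe]; exact h1.2)
      rw [← hMh, ← hlam1, ← hU, hcoe] at h2
      refine h2.trans (ENNReal.ofReal_le_ofReal ?_)
      rw [hB]
      have h3 : (volume (wet P 0 m \ nbd r' (inv P 0 m))).toReal ≤ Cw * x ^ (1 - u / 6) := by
        rw [← hV]
        exact ENNReal.toReal_le_of_le_ofReal hV0 hHP.2.2.2
      have h4 : (((m + 1 : ℕ)) : ℝ) = x + 1 := by rw [hx]; push_cast; ring
      rw [h4, eu 400 (by norm_num), ha]
      have : 0 ≤ (h : ℝ) := h.2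
      gcongr
  -- final
  have hHgood : ν {q | H (un3 q)} ≤ pgood d lam (thr κ m0) L' m := by
    rw [← htr hHme]
    unfold pgood
    rw [← hU]
    apply measure_mono
    intro ω hω
    rw [hH] at hω
    exact hω.1
  have hexp2 : Real.exp (-(lam2 * q0)) ≤ Real.exp (-(c2 * a)) := by
    apply Real.exp_le_exp.2
    apply neg_le_neg
    calc c2 * a = (lam : ℝ) / 4 * (c * x ^ (u / 400)) := by rw [hc2def, ha]; ring
      _ ≤ (lam : ℝ) / 4 * (x ^ (-(u / 6)) * q0) := mul_le_mul_of_nonneg_left hspr (by positivity)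
      _ = (lam * (e / 4)) * q0 := by rw [he]; ring
      _ ≤ lam2 * q0 := mul_le_mul_of_nonneg_right hlam2R hq0pos.le
  have hexp := two_exp c1 c2 a hc1 hc2 (by rw [ha]; exact hxb)
  have hnh : (n : ℝ≥0∞) * (h : ℝ≥0∞) = ENNReal.ofReal (2 * x * h) := by
    rw [← hnR, ENNReal.ofReal_mul (Nat.cast_nonneg _), ENNReal.ofReal_natCast,
      ENNReal.ofReal_coe_nnreal]
  have e25 : (1 / (25 * (κ : ℝ))) = u / 25 := eu 25 (by norm_num)
  have e400 : (1 / (400 * (κ : ℝ))) = u / 400 := eu 400 (by norm_num)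
  rw [← hm, ← hn, ← hx, e25, e400, ← ha]
  have step3' : ν {q | H (un3 q) ∧ (CLr r' (un3 q) (inv (un3 q) 0 m)).ncard ≤ n} ≤
      ν {q | H (un3 q) ∧ volume (nbd r1 (LLs r1 (pt q.1) (pt q.2.1) ∅) ∩
        nbd r' (inv (un3 q) 0 m) ∩ U) < ENNReal.ofReal q0}
      + ENNReal.ofReal (Real.exp (-(lam2 * q0))) + n * h * ν {q | H (un3 q)} := by
    rw [hν]; exact step3
  calc pgood d lam (thr κ m0) L' m
      ≤ pgood d lam (thr κ m0) L' n + (ENNReal.ofReal (Real.exp (-(c1 * a))) +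
        (ENNReal.ofReal B * ν {q | H (un3 q)} + ENNReal.ofReal (Real.exp (-(c2 * a)))
          + ENNReal.ofReal (2 * x * h) * ν {q | H (un3 q)})) := by
        refine step1.trans ?_
        gcongr
        refine step2.trans (step3'.trans ?_)
        rw [hnh]
        gcongr
    _ = pgood d lam (thr κ m0) L' n + (ENNReal.ofReal B + ENNReal.ofReal (2 * x * h)) *
          ν {q | H (un3 q)} + (ENNReal.ofReal (Real.exp (-(c1 * a))) +
            ENNReal.ofReal (Real.exp (-(c2 * a)))) := by ring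
    _ ≤ pgood d lam (thr κ m0) L' n + ENNReal.ofReal
          ((C1 * (2 * K * (2 / c + 1) + Cw) + 2) * x ^ (-(u / 25))) *
          pgood d lam (thr κ m0) L' m + ENNReal.ofReal (Real.exp (-(min c1 c2 / 2 * a))) := by
        rw [← ENNReal.ofReal_add hB0 (by have : 0 ≤ (h : ℝ) := h.2; positivity),
          ← ENNReal.ofReal_add (Real.exp_pos _).le (Real.exp_pos _).le]
        have hb : B + 2 * x * h ≤ (C1 * (2 * K * (2 / c + 1) + Cw) + 2) * x ^ (-(u / 25)) := by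
          rw [hB]; exact hest
        gcongr

end Pool.Agent.Lib.MP_5349a4_pr.H77
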