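import Pool.Agent.Lib.MP_5349a4_pr.M.H77.StageMeas

/-!
# Deterministic lemmas for the module STAGE
-/

set_option autoImplicit false
open MeasureTheory Set
open scoped ENNReal NNReal

namespace Pool.Agent.Lib.MP_5349a4_pr.H77

variable {d : ℕ}

theorem lf_finite {P : Set (Eu d)} (h : P.Finite) : LF P := fun _ _ => h.subset inter_subset_left

/-! ## thresholds -/

theorem thr_two (κ m0 : ℕ) (hm : 1 ≤ m0) (j : ℕ) : thr κ m0 j ≤ 2 := by
  unfold thr
  split_ifs with h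
  · norm_num
  · have h1 : (1 : ℝ) ≤ ((2 ^ Nat.log 2 (j / m0) * m0 : ℕ) : ℝ) := by
      have : 1 ≤ 2 ^ Nat.log 2 (j / m0) * m0 := Nat.one_le_iff_ne_zero.2 (by positivity)
      exact_mod_cast this
    have h2 : (((2 ^ Nat.log 2 (j / m0) * m0 : ℕ) : ℝ)) ^ (-(1 / (6 * (κ : ℝ)))) ≤ 1 := by
      apply Real.rpow_le_one_of_one_le_of_nonpos h1
      have : (0 : ℝ) ≤ 1 / (6 * (κ : ℝ)) := by positivity
      linarith
    linarith

theorem thr_eq (κ m0 k j : ℕ) (hm : 1 ≤ m0) (h1 : 2 ^ k * m0 ≤ j) (h2 : j < 2 ^ (k + 1) * m0) :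
    thr κ m0 j = 1 + ((2 ^ k * m0 : ℕ) : ℝ) ^ (-(1 / (6 * (κ : ℝ)))) := by
  have h3 : m0 ≤ j := le_trans (Nat.le_mul_of_pos_left m0 (by positivity)) h1
  have h4 : 2 ^ k ≤ j / m0 := (Nat.le_div_iff_mul_le hm).2 h1
  have h5 : j / m0 < 2 ^ (k + 1) := (Nat.div_lt_iff_lt_mul hm).2 h2
  have h6 : Nat.log 2 (j / m0) = k :=
    (Nat.log_eq_iff (Or.inr ⟨by norm_num, by
      have : 0 < 2 ^ k := by positivity
      omega⟩)).2 ⟨h4, h5⟩
  unfold thr
  rw [if_neg (by omega), h6]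

/-! ## covering -/

theorem cover (d : ℕ) : ∃ K : ℕ, 1 ≤ K ∧ ∀ (S : Set (Eu d)) (x : Eu d) (a : ℝ), S.Finite →
    (∀ v, ((S ∩ bal v 1).ncard : ℝ) ≤ a) → ((S ∩ bal x 2).ncard : ℝ) ≤ K * a := by
  obtain ⟨t, -, ht, hc⟩ := (isCompact_closedBall (0 : Eu d) 2).finite_cover_balls
    (e := 1) (by norm_num)
  have ht' : t.Nonempty := by
    by_contra h
    rw [not_nonempty_iff_eq_empty] at h
    have := hc (Metric.mem_closedBall_self (by norm_num) : (0 : Eu d) ∈ Metric.closedBall 0 2)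
    rw [h] at this
    simp at this
  refine ⟨ht.toFinset.card, ?_, ?_⟩
  · rw [Nat.one_le_iff_ne_zero, Finset.card_ne_zero]
    obtain ⟨z, hz⟩ := ht'
    exact ⟨z, ht.mem_toFinset.2 hz⟩
  · intro S x a hS hv
    have h1 : S ∩ bal x 2 ⊆ ⋃ y ∈ ht.toFinset, (S ∩ bal (x + y) 1) := by
      rintro z ⟨hz, hzx⟩
      have : z - x ∈ Metric.closedBall (0 : Eu d) 2 := by
        rw [mem_closedBall_zero_iff]
        have := Metric.mem_closedBall.1 hzx
        rwa [dist_eq_norm] at this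
      obtain ⟨y, hy, hzy⟩ := mem_iUnion₂.1 (hc this)
      refine mem_iUnion₂.2 ⟨y, ht.mem_toFinset.2 hy, hz, ?_⟩
      rw [bal, Metric.mem_closedBall, dist_eq_norm]
      have h3 := (Metric.mem_ball.1 hzy).le
      rw [dist_eq_norm] at h3
      rwa [show z - (x + y) = z - x - y by abel]
    have h2 : (S ∩ bal x 2).ncard ≤ ∑ y ∈ ht.toFinset, (S ∩ bal (x + y) 1).ncard := by
      refine (Set.ncard_le_ncard h1 ?_).trans ?_
      · exact (Set.Finite.biUnion ht.toFinset.finite_toSet (fun y _ => hS.subset inter_subset_left))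
      · exact Finset.set_ncard_biUnion_le _ _
    calc ((S ∩ bal x 2).ncard : ℝ) ≤ ((∑ y ∈ ht.toFinset, (S ∩ bal (x + y) 1).ncard : ℕ) : ℝ) := by
          exact_mod_cast h2
      _ = ∑ y ∈ ht.toFinset, ((S ∩ bal (x + y) 1).ncard : ℝ) := by push_cast; rfl
      _ ≤ ∑ y ∈ ht.toFinset, a := Finset.sum_le_sum fun y _ => hv _
      _ = ht.toFinset.card * a := by rw [Finset.sum_const, nsmul_eq_mul]

/-! ## consequences of the event `H` -/

theorem finite_of_HH {th : ℕ → ℝ} {m : ℕ} {N V : ℝ≥0∞} {s : ℝ} {P : Set (Eu d)}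
    (h : HH th m N V s P) : (inv P 0 m).Finite ∧ (inv P 0 m).ncard = m + 1 := by
  have h1 := h.2.2.1
  rw [cntm_eq, inter_univ] at h1
  have h2 : (inv P 0 m).encard = ((m + 1 : ℕ) : ℕ∞) := by
    have : (((inv P 0 m).encard : ℕ∞) : ℝ≥0∞) = (((m + 1 : ℕ) : ℕ∞) : ℝ≥0∞) := by
      rw [h1]; push_cast; rfl
    exact ENat.toENNReal_inj.1 this
  refine ⟨Set.encard_ne_top_iff.1 (by rw [h2]; exact ENat.natCast_ne_top _), ?_⟩
  rw [Set.ncard, h2]; rfl

theorem dens_of_HH {th : ℕ → ℝ} {m : ℕ} {D : ℝ} {V : ℝ≥0∞} {s : ℝ} {P : Set (Eu d)} (hD : 0 ≤ D)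
    (h : HH th m (ENNReal.ofReal D) V s P) : Dens (inv P 0 m) D := by
  intro v
  have hf := (finite_of_HH h).1
  obtain ⟨i, hi⟩ := (TopologicalSpace.denseRange_denseSeq (Eu d)).exists_dist_lt v
    (ε := 1) (by norm_num)
  have h1 := h.2.1 i
  rw [cntm_eq] at h1
  have h2 : inv P 0 m ∩ bal v 1 ⊆ inv P 0 m ∩ bal (TopologicalSpace.denseSeq (Eu d) i) 2 := by
    rintro z ⟨hz, hzv⟩
    refine ⟨hz, ?_⟩
    have := Metric.mem_closedBall.1 hzv
    rw [bal, Metric.mem_closedBall]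
    have h3 := dist_triangle z v (TopologicalSpace.denseSeq (Eu d) i)
    linarith
  have h3 : ((inv P 0 m ∩ bal v 1).encard : ℝ≥0∞) ≤ ENNReal.ofReal D :=
    (ENat.toENNReal_le.2 (Set.encard_le_encard h2)).trans h1
  rw [← (hf.subset inter_subset_left : (inv P 0 m ∩ bal v 1).Finite).cast_ncard_eq] at h3
  have h4 : (((inv P 0 m ∩ bal v 1).ncard : ℕ) : ℝ≥0∞) ≤ ENNReal.ofReal D := by
    simpa using h3
  rwa [← ENNReal.ofReal_natCast, ENNReal.ofReal_le_ofReal_iff hD] at h4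

theorem HH_congr {th : ℕ → ℝ} {m : ℕ} {N V : ℝ≥0∞} {s : ℝ} {P Q : Set (Eu d)}
    (h1 : ∀ j ≤ m, inv Q 0 j = inv P 0 j) (h2 : ∀ j < m, lab Q 0 j = lab P 0 j)
    (h3 : wet Q 0 m = wet P 0 m) : HH th m N V s Q ↔ HH th m N V s P := by
  unfold HH good
  rw [h3, cntm_eq, cntm_eq, h1 m le_rfl]
  constructor
  · rintro ⟨a, b, c, e⟩
    refine ⟨fun j hj => h2 j hj ▸ a j hj, fun i => ?_, c, e⟩
    have := b i
    rw [cntm_eq, h1 m le_rfl] at this
    rwa [cntm_eq]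
  · rintro ⟨a, b, c, e⟩
    refine ⟨fun j hj => (h2 j hj).symm ▸ a j hj, fun i => ?_, c, e⟩
    have := b i
    rw [cntm_eq] at this
    rwa [cntm_eq, h1 m le_rfl]

/-- the invasion is large if the labels are finite -/
theorem ncard_inv (hINVD : InvDStatement) {th : ℕ → ℝ} {m : ℕ} {P : Set (Eu d)} (hP : P.Finite)
    (hG : GenO P 0) (hg : good th P 0 m) : (inv P 0 m).ncard = m + 1 := by
  have h7 := (hINVD d P P 0 (lf_finite hP) (lf_finite hP)).2.2.2.2.2.2.1 hG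
  by_cases hm : (m : ℕ∞) ≤ P.encard
  · exact (h7 m).2 hm
  · exfalso
    rw [not_le, ← hP.cast_ncard_eq, Nat.cast_lt] at hm
    have h8 := (h7 P.ncard).2 (by rw [hP.cast_ncard_eq])
    have h9 : inv P 0 P.ncard = insert 0 P := by
      apply Set.eq_of_subset_of_ncard_le (inv_sub P 0 _) _ (hP.insert 0)
      rw [h8, Set.ncard_insert_of_notMem hG.1 hP]
    have h10 := hg P.ncard hm
    unfold lab at h10
    rw [h9] at h10
    have : P \ insert 0 P = (∅ : Set (Eu d)) := by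
      ext x; simp only [mem_sdiff, mem_insert_iff, mem_empty_iff_false, iff_false]; tauto
    rw [this] at h10
    simp at h10

/-- failure of the density bound for the invaded set -/
theorem dens_event {P : Set (Eu d)} (hP : P.Finite) {m : ℕ} (hb : inv P 0 m ⊆ bal 0 (2 * m))
    {a : ℝ} (ha : 0 ≤ a) {v : Eu d} (hv : a < ((inv P 0 m ∩ bal v 1).ncard : ℝ)) :
    v ∈ bal (0 : Eu d) (2 * m + 2) ∧ a - 1 < ((P ∩ bal v 1).ncard : ℝ) := by
  constructor
  · have h1 : 0 < (inv P 0 m ∩ bal v 1).ncard := by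
      by_contra h
      have : (inv P 0 m ∩ bal v 1).ncard = 0 := by omega
      rw [this] at hv
      simp at hv; linarith
    obtain ⟨z, hz, hzv⟩ := (Set.ncard_pos ((hP.insert 0).subset
      (inter_subset_left.trans (inv_sub P 0 m)))).1 h1
    have h2 := Metric.mem_closedBall.1 (hb hz)
    have h3 := Metric.mem_closedBall.1 hzv
    rw [bal, Metric.mem_closedBall]
    have h4 := dist_triangle v z 0
    rw [dist_comm v z] at h4
    linarith
  · have h1 : inv P 0 m ∩ bal v 1 ⊆ insert 0 (P ∩ bal v 1) := by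
      rintro z ⟨hz, hzv⟩
      rcases inv_sub P 0 m hz with h | h
      · exact Or.inl h
      · exact Or.inr ⟨h, hzv⟩
    have h2 : (inv P 0 m ∩ bal v 1).ncard ≤ (P ∩ bal v 1).ncard + 1 :=
      (Set.ncard_le_ncard h1 ((hP.subset inter_subset_left).insert 0)).trans
        (Set.ncard_insert_le _ _)
    have h3 : ((inv P 0 m ∩ bal v 1).ncard : ℝ) ≤ ((P ∩ bal v 1).ncard : ℝ) + 1 := by
      exact_mod_cast h2
    linarith

/-- decomposition of the event `good m` -/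
theorem good_dec (hINVD : InvDStatement) {κ m0 k : ℕ} (hm0 : 1 ≤ m0) {Cw a : ℝ} {K : ℕ}
    (ha : 0 ≤ a)
    (hK : ∀ (S : Set (Eu d)) (x : Eu d) (a : ℝ), S.Finite →
      (∀ v, ((S ∩ bal v 1).ncard : ℝ) ≤ a) → ((S ∩ bal x 2).ncard : ℝ) ≤ K * a)
    (hW : ∀ P : Set (Eu d), P.Finite → GenO P 0 → good (thr κ m0) P 0 (2 ^ k * m0) →
      volume (wet P 0 (2 ^ k * m0) \
        nbd (1 + ((2 ^ k * m0 : ℕ) : ℝ) ^ (-(1 / (6 * (κ : ℝ))))) (inv P 0 (2 ^ k * m0)))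
      ≤ ENNReal.ofReal (Cw * ((2 ^ k * m0 : ℕ) : ℝ) ^ (1 - 1 / (6 * (κ : ℝ)))))
    {P : Set (Eu d)} (hP : P.Finite) (hG : GenO P 0) (hg : good (thr κ m0) P 0 (2 ^ k * m0)) :
    (∃ v ∈ bal (0 : Eu d) (2 * (2 ^ k * m0 : ℕ) + 2), a - 1 < ((P ∩ bal v 1).ncard : ℝ)) ∨
    HH (thr κ m0) (2 ^ k * m0) (ENNReal.ofReal (K * a))
      (ENNReal.ofReal (Cw * ((2 ^ k * m0 : ℕ) : ℝ) ^ (1 - 1 / (6 * (κ : ℝ)))))
      (1 + ((2 ^ k * m0 : ℕ) : ℝ) ^ (-(1 / (6 * (κ : ℝ))))) P := by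
  set m := 2 ^ k * m0 with hm
  have hI := hINVD d P P 0 (lf_finite hP) (lf_finite hP)
  have hfin : (inv P 0 m).Finite := (hP.insert 0).subset (inv_sub P 0 m)
  have hb := (hI.2.2.2.1 (thr κ m0) m (thr_two κ m0 hm0) hg).1
  by_cases hc : ∀ i : ℕ, cntm P m (bal (TopologicalSpace.denseSeq (Eu d) i) 2)
      ≤ ENNReal.ofReal (K * a)
  · right
    refine ⟨hg, hc, ?_, hW P hP hG hg⟩
    rw [cntm_eq, inter_univ, ← hfin.cast_ncard_eq, ncard_inv hINVD hP hG hg]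
    push_cast; rfl
  · left
    push Not at hc
    obtain ⟨i, hi⟩ := hc
    rw [cntm_eq, ← (hfin.subset inter_subset_left : (inv P 0 m ∩ bal _ 2).Finite).cast_ncard_eq] at hi
    have hi' : (K * a : ℝ) < ((inv P 0 m ∩ bal (TopologicalSpace.denseSeq (Eu d) i) 2).ncard : ℝ) := by
      rw [ENat.toENNReal_coe, ← ENNReal.ofReal_natCast] at hi
      exact ((ENNReal.ofReal_lt_ofReal_iff_of_nonneg (by positivity)).1 hi)
    by_contra hcon
    push Not at hcon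
    have : ∀ v, ((inv P 0 m ∩ bal v 1).ncard : ℝ) ≤ a := by
      intro v
      by_contra hv
      rw [not_le] at hv
      obtain ⟨h1, h2⟩ := dens_event hP hb ha hv
      exact absurd h2 (not_lt.2 (hcon v h1))
    exact absurd (hK _ _ a hfin this) (not_le.2 hi')

/-- not good afterwards means a small cluster -/
theorem small_cluster (hINVD : InvDStatement) {κ m0 k : ℕ} (hm0 : 1 ≤ m0) {P : Set (Eu d)}
    (hP : P.Finite) (hG : GenO P 0) (hg : good (thr κ m0) P 0 (2 ^ k * m0))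
    (hn : ¬ good (thr κ m0) P 0 (2 ^ (k + 1) * m0)) :
    (CLr (1 + ((2 ^ k * m0 : ℕ) : ℝ) ^ (-(1 / (6 * (κ : ℝ))))) P (inv P 0 (2 ^ k * m0))).ncard
      ≤ 2 ^ (k + 1) * m0 := by
  set r := 1 + ((2 ^ k * m0 : ℕ) : ℝ) ^ (-(1 / (6 * (κ : ℝ)))) with hr
  have hr0 : 0 ≤ r := by
    have : (0 : ℝ) ≤ ((2 ^ k * m0 : ℕ) : ℝ) ^ (-(1 / (6 * (κ : ℝ)))) :=
      Real.rpow_nonneg (Nat.cast_nonneg _) _
    linarith
  by_contra hc
  rw [not_le] at hc
  have hfin : (CLr r P (inv P 0 (2 ^ k * m0))).Finite := by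
    by_contra hinf
    have := Set.Infinite.ncard hinf
    omega
  have h8 := (hINVD d P P 0 (lf_finite hP) (lf_finite hP)).2.2.2.2.2.2.2 hG r (2 ^ k * m0)
    (2 ^ (k + 1) * m0) hr0 hfin (by omega)
  apply hn
  intro j hj
  by_cases hjm : j < 2 ^ k * m0
  · exact hg j hjm
  · rw [thr_eq κ m0 k j hm0 (by omega) hj]
    exact h8 j (by omega) hj

end Pool.Agent.Lib.MP_5349a4_pr.H77
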