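import Pool.Agent.Lib.MP_5349a4_pr.M.Iface3
import Pool.Agent.Lib.MP_5349a4_pr.M.Base

/-!
# Measurability for the module STAGE
-/

set_option autoImplicit false
open MeasureTheory Set
open scoped ENNReal NNReal

namespace Pool.Agent.Lib.MP_5349a4_pr.H77

variable {d : ℕ}

/-! ## Counting -/

theorem tsum_ind_encard {E : Type} (S B : Set E) :
    ∑' p : S, ind ((p : E) ∈ B) = ((S ∩ B).encard : ℝ≥0∞) := by
  rw [← ENNReal.tsum_set_one, tsum_subtype S (fun x => ind (x ∈ B)),
    tsum_subtype (S ∩ B) (fun _ => (1 : ℝ≥0∞))]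
  congr 1
  funext x
  by_cases h1 : x ∈ S
  · rw [indicator_of_mem h1]
    by_cases h2 : x ∈ B
    · rw [ind_of h2, indicator_of_mem (show x ∈ S ∩ B from ⟨h1, h2⟩)]
    · rw [ind_not h2, indicator_of_notMem (show x ∉ S ∩ B from fun h => h2 h.2)]
  · rw [indicator_of_notMem h1, indicator_of_notMem (show x ∉ S ∩ B from fun h => h1 h.1)]

/-- number of invaded points in `B` after `m` steps -/
noncomputable def cntm (P : Set (Eu d)) (m : ℕ) (B : Set (Eu d)) : ℝ≥0∞ :=
  ∑ i ∈ Finset.range (m + 1), nnew P 0 i (fun z => ind (z ∈ B))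

theorem inv_succ_sub (P : Set (Eu d)) (o : Eu d) (k : ℕ) : inv P o k ⊆ inv P o (k + 1) := by
  intro x hx
  exact Or.inl hx

theorem zero_mem_inv (P : Set (Eu d)) (o : Eu d) (k : ℕ) : o ∈ inv P o k := by
  induction k with
  | zero => exact rfl
  | succ k ih => exact inv_succ_sub P o k ih

theorem cntm_eq (P : Set (Eu d)) (m : ℕ) (B : Set (Eu d)) :
    cntm P m B = ((inv P 0 m ∩ B).encard : ℝ≥0∞) := by
  induction m with
  | zero =>
    simp only [cntm, zero_add, Finset.range_one, Finset.sum_singleton]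
    exact tsum_ind_encard _ B
  | succ m ih =>
    have h1 : cntm P (m + 1) B = cntm P m B + nnew P 0 (m + 1) (fun z => ind (z ∈ B)) := by
      unfold cntm
      rw [Finset.sum_range_succ]
    have h2 : inv P 0 (m + 1) ∩ B = (inv P 0 m ∩ B) ∪ (newp P 0 (m + 1) ∩ B) := by
      ext x
      constructor
      · rintro ⟨hx, hb⟩
        by_cases hm : x ∈ inv P 0 m
        · exact Or.inl ⟨hm, hb⟩
        · exact Or.inr ⟨⟨hx, hm⟩, hb⟩
      · rintro (⟨hx, hb⟩ | ⟨hx, hb⟩)
        · exact ⟨inv_succ_sub P 0 m hx, hb⟩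
        · exact ⟨hx.1, hb⟩
    have h3 : Disjoint (inv P 0 m ∩ B) (newp P 0 (m + 1) ∩ B) := by
      rw [Set.disjoint_left]
      rintro x ⟨hx, _⟩ ⟨hx', _⟩
      exact hx'.2 hx
    rw [h1, ih, h2, Set.encard_union_eq h3]
    push_cast
    congr 1
    exact tsum_ind_encard _ B

/-! ## Measurability -/

theorem meas_mem (hMSUM : MSumStatement) :
    MeasurableSet {q : Eu d × Cfg (Eu d) | q.1 ∈ pt q.2} := by
  have h := hMSUM.2.1 (Eu d) (Eu d) (fun t p _ => p = t)
    (measurableSet_eq_fun (measurable_fst.comp measurable_snd) measurable_fst)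
  convert h using 1
  ext q
  constructor
  · intro hq; exact ⟨q.1, hq, rfl⟩
  · rintro ⟨p, hp, rfl⟩; exact hp

theorem mem_cl_iff (hCLB : ClbStatement) {E : Type} (adj : E → E → Prop) (P : Set E) (y p : E) :
    p ∈ cl adj P y ↔ p = y ∨ (p ∈ P ∧ Con adj P y p) := by
  have h := (hCLB E adj P P y p).2.1
  constructor
  · intro hp
    by_cases hy : p = y
    · exact Or.inl hy
    · exact Or.inr (h.1 ⟨hp, hy⟩)
  · rintro (rfl | hp)
    · exact Relation.ReflTransGen.refl
    · exact h.2 hp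

theorem meas_cl (hMSUM : MSumStatement) (hCONM : ConMStatement) (hCLB : ClbStatement) (r : ℝ) :
    MeasurableSet {q : Eu d × Eu d × Cfg (Eu d) | q.2.1 ∈ cl (ad r) (pt q.2.2) q.1} := by
  have h1 : MeasurableSet {q : Eu d × Eu d × Cfg (Eu d) | q.2.1 = q.1} :=
    measurableSet_eq_fun (measurable_fst.comp measurable_snd) measurable_fst
  have h2 : MeasurableSet {q : Eu d × Eu d × Cfg (Eu d) | q.2.1 ∈ pt q.2.2} :=
    measurable_snd (meas_mem hMSUM)
  have h3 := (hCONM (Eu d) (ad r) (madj_ad r)).1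
  convert h1.union (h2.inter h3) using 1
  ext q
  exact mem_cl_iff hCLB _ _ _ _

/-- the `r`-neighbourhood of the points connected to green points, in the space of triples -/
theorem meas_LL (hMOPS : MOpsStatement) (hMSUM : MSumStatement) (hCONM : ConMStatement)
    (hCLB : ClbStatement) (r : ℝ) :
    MeasurableSet {q : Eu d × Cfg (Eu d) × Cfg (Eu d) |
      q.1 ∈ nbd r (LLs r (pt q.2.1) (pt q.2.2) ∅)} := by
  obtain ⟨un, hun, hun'⟩ := hMOPS.1 (Eu d)
  -- exists a green point in the cluster of y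
  have h1 : MeasurableSet {q : (Eu d × Cfg (Eu d)) × Cfg (Eu d) |
      ∃ p ∈ pt q.2, p ∈ cl (ad r) (pt q.1.2) q.1.1} := by
    refine hMSUM.2.1 (Eu d × Cfg (Eu d)) (Eu d) (fun t p _ => p ∈ cl (ad r) (pt t.2) t.1) ?_
    have hm : Measurable fun q : (Eu d × Cfg (Eu d)) × Eu d × Cfg (Eu d) =>
        ((q.1.1, q.2.1, q.1.2) : Eu d × Eu d × Cfg (Eu d)) := by fun_prop
    exact hm (meas_cl hMSUM hCONM hCLB r)
  have h2 : MeasurableSet {q : (Eu d × Cfg (Eu d)) × Cfg (Eu d) |
      ∃ y ∈ pt q.2, (∃ p ∈ pt q.1.2, p ∈ cl (ad r) (pt q.2) y) ∧ dist q.1.1 y ≤ r} := by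
    refine hMSUM.2.1 (Eu d × Cfg (Eu d)) (Eu d)
      (fun t y P => (∃ p ∈ pt t.2, p ∈ cl (ad r) P y) ∧ dist t.1 y ≤ r) ?_
    have hm : Measurable fun q : (Eu d × Cfg (Eu d)) × Eu d × Cfg (Eu d) =>
        (((q.2.1, q.2.2), q.1.2) : (Eu d × Cfg (Eu d)) × Cfg (Eu d)) := by fun_prop
    have hd : Measurable fun q : (Eu d × Cfg (Eu d)) × Eu d × Cfg (Eu d) =>
        dist q.1.1 q.2.1 := by fun_prop
    exact (hm h1).inter (measurableSet_le hd measurable_const)
  have hm : Measurable fun q : Eu d × Cfg (Eu d) × Cfg (Eu d) =>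
      (((q.1, q.2.2), un q.2) : (Eu d × Cfg (Eu d)) × Cfg (Eu d)) := by fun_prop
  convert hm h2 using 1
  ext q
  simp only [Set.mem_ofPred_eq, mem_preimage, nbd, LLs, sdiff_empty, hun']
  constructor
  · rintro ⟨y, ⟨hy, p, hp, hc⟩, hd⟩; exact ⟨y, hy, ⟨p, hp, hc⟩, hd⟩
  · rintro ⟨y, hy, ⟨p, hp, hc⟩, hd⟩; exact ⟨y, ⟨hy, p, hp, hc⟩, hd⟩

theorem inv_sub (P : Set (Eu d)) (o : Eu d) (k : ℕ) : inv P o k ⊆ insert o P := by
  induction k with
  | zero => intro x hx; exact Or.inl hx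
  | succ k ih =>
    rintro x (hx | hx)
    · exact ih hx
    · exact Or.inr hx.1.1

theorem meas_nbd_inv (hMSUM : MSumStatement) (hINVM : InvMStatement) (s : ℝ) (m : ℕ) :
    MeasurableSet {q : Eu d × Cfg (Eu d) | q.1 ∈ nbd s (inv (pt q.2) 0 m)} := by
  have h1 : MeasurableSet {q : Eu d × Cfg (Eu d) | dist q.1 0 ≤ s} :=
    measurableSet_le (by fun_prop) measurable_const
  have h2 : MeasurableSet {q : Eu d × Cfg (Eu d) |
      ∃ u ∈ pt q.2, u ∈ inv (pt q.2) 0 m ∧ dist q.1 u ≤ s} := by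
    refine hMSUM.2.1 (Eu d) (Eu d) (fun t u P => u ∈ inv P 0 m ∧ dist t u ≤ s) ?_
    have hm : Measurable fun q : Eu d × Eu d × Cfg (Eu d) =>
        ((0, q.2.1, q.2.2) : Eu d × Eu d × Cfg (Eu d)) := by fun_prop
    have hd : Measurable fun q : Eu d × Eu d × Cfg (Eu d) => dist q.1 q.2.1 := by fun_prop
    exact (hm ((hINVM d m).1)).inter (measurableSet_le hd measurable_const)
  convert h1.union h2 using 1
  ext q
  constructor
  · rintro ⟨u, hu, hd⟩
    rcases inv_sub _ _ _ hu with h0 | h0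
    · left; rw [h0] at hd; exact hd
    · right; exact ⟨u, h0, hu, hd⟩
  · rintro (hd | ⟨u, _, hu, hd⟩)
    · exact ⟨0, zero_mem_inv _ _ _, hd⟩
    · exact ⟨u, hu, hd⟩

theorem meas_wet (hINVM : InvMStatement) (m : ℕ) :
    MeasurableSet {q : Eu d × Cfg (Eu d) | q.1 ∈ wet (pt q.2) 0 m} := by
  have hm : Measurable fun q : Eu d × Cfg (Eu d) =>
      ((0, q.1, q.2) : Eu d × Eu d × Cfg (Eu d)) := by fun_prop
  exact hm (hINVM d m).2.2.1

/-- the event `H` of the stage: depends only on the invasion up to step `m` -/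
def HH (th : ℕ → ℝ) (m : ℕ) (N V : ℝ≥0∞) (s : ℝ) (P : Set (Eu d)) : Prop :=
  good th P 0 m ∧ (∀ i : ℕ, cntm P m (bal (TopologicalSpace.denseSeq (Eu d) i) 2) ≤ N) ∧
    cntm P m univ = (m : ℝ≥0∞) + 1 ∧ volume (wet P 0 m \ nbd s (inv P 0 m)) ≤ V

theorem meas_cntm (hINVM : InvMStatement) (m : ℕ) {B : Set (Eu d)} (hB : MeasurableSet B) :
    Measurable fun ω : Cfg (Eu d) => cntm (pt ω) m B := by
  unfold cntm
  refine Finset.measurable_fun_sum _ fun i _ => ?_
  have h := (hINVM d i).2.2.2.2.1 Unit (fun _ z => ind (z ∈ B)) (measurable_ind (measurable_snd hB))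
  have hm : Measurable fun ω : Cfg (Eu d) => (((), 0, ω) : Unit × Eu d × Cfg (Eu d)) := by fun_prop
  exact h.comp hm

theorem meas_good (hINVM : InvMStatement) (th : ℕ → ℝ) (m : ℕ) :
    MeasurableSet {ω : Cfg (Eu d) | good th (pt ω) 0 m} := by
  have hm : Measurable fun ω : Cfg (Eu d) => ((0, ω) : Eu d × Cfg (Eu d)) := by fun_prop
  exact hm ((hINVM d m).2.2.2.1 th)

theorem me_HH (hMSUM : MSumStatement) (hINVM : InvMStatement) (th : ℕ → ℝ) (m : ℕ) (N V : ℝ≥0∞)
    (s : ℝ) : ME (HH (d := d) th m N V s) := by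
  have h1 := meas_good (d := d) hINVM th m
  have h2 : MeasurableSet {ω : Cfg (Eu d) |
      ∀ i : ℕ, cntm (pt ω) m (bal (TopologicalSpace.denseSeq (Eu d) i) 2) ≤ N} := by
    rw [Set.ofPred_forall]
    refine MeasurableSet.iInter fun i => ?_
    exact measurableSet_le (meas_cntm hINVM m Metric.isClosed_closedBall.measurableSet)
      measurable_const
  have h3 : MeasurableSet {ω : Cfg (Eu d) | cntm (pt ω) m univ = (m : ℝ≥0∞) + 1} :=
    measurableSet_eq_fun (meas_cntm hINVM m MeasurableSet.univ) measurable_const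
  have h4 : MeasurableSet {ω : Cfg (Eu d) |
      volume (wet (pt ω) 0 m \ nbd s (inv (pt ω) 0 m)) ≤ V} := by
    have hS : MeasurableSet {q : Cfg (Eu d) × Eu d |
        q.2 ∈ wet (pt q.1) 0 m \ nbd s (inv (pt q.1) 0 m)} := by
      have hm : Measurable fun q : Cfg (Eu d) × Eu d => ((q.2, q.1) : Eu d × Cfg (Eu d)) := by
        fun_prop
      exact (hm (meas_wet hINVM m)).diff (hm (meas_nbd_inv hMSUM hINVM s m))
    exact measurableSet_le (measurable_measure_prodMk_left hS) measurable_const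
  have := h1.inter (h2.inter (h3.inter h4))
  exact this

/-- general position is measurable -/
theorem me_GenO : ME (fun P : Set (Eu d) => GenO P 0) := by
  unfold ME
  rw [measurableSet_cfg]
  intro k
  have h1 : MeasurableSet {x : Fin k → Eu d | (0 : Eu d) ∉ range x} := by
    have : {x : Fin k → Eu d | (0 : Eu d) ∉ range x} = ⋂ i, {x : Fin k → Eu d | x i ≠ 0} := by
      ext x; simp
    rw [this]
    refine MeasurableSet.iInter fun i => ?_
    exact (measurableSet_eq_fun (measurable_pi_apply i) measurable_const).compl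
  have ev : ∀ o : Option (Fin k), Measurable fun x : Fin k → Eu d => (o.elim 0 x : Eu d) := by
    intro o
    cases o with
    | none => exact measurable_const
    | some i => exact measurable_pi_apply i
  have h2 : MeasurableSet {x : Fin k → Eu d | ∀ a b c e : Option (Fin k),
      (a.elim 0 x : Eu d) ≠ b.elim 0 x → (c.elim 0 x : Eu d) ≠ e.elim 0 x →
      dist (a.elim 0 x : Eu d) (b.elim 0 x) = dist (c.elim 0 x : Eu d) (e.elim 0 x) →
      ((a.elim 0 x : Eu d) = c.elim 0 x ∧ (b.elim 0 x : Eu d) = e.elim 0 x) ∨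
      ((a.elim 0 x : Eu d) = e.elim 0 x ∧ (b.elim 0 x : Eu d) = c.elim 0 x)} := by
    simp only [Set.ofPred_forall]
    refine MeasurableSet.iInter fun a => MeasurableSet.iInter fun b => MeasurableSet.iInter fun c =>
      MeasurableSet.iInter fun e => ?_
    have q : ∀ a b : Option (Fin k), MeasurableSet {x : Fin k → Eu d |
        (a.elim 0 x : Eu d) = b.elim 0 x} := fun a b => measurableSet_eq_fun (ev a) (ev b)
    have qd : MeasurableSet {x : Fin k → Eu d | dist (a.elim 0 x : Eu d) (b.elim 0 x)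
        = dist (c.elim 0 x : Eu d) (e.elim 0 x)} :=
      measurableSet_eq_fun ((ev a).dist (ev b)) ((ev c).dist (ev e))
    have hfin := ((q a b).compl.inter ((q c e).compl.inter (qd.inter
      (((q a c).inter (q b e)).union ((q a e).inter (q b c))).compl))).compl
    convert hfin using 1
    ext x
    simp only [Set.mem_ofPred_eq, mem_compl_iff, mem_inter_iff, mem_union]
    tauto
  convert h1.inter h2 using 1
  ext x
  constructor
  · rintro ⟨ha, hb⟩
    refine ⟨ha, ?_⟩
    intro a b c e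
    have mem : ∀ o : Option (Fin k), (o.elim 0 x : Eu d) ∈ insert (0 : Eu d) (range x) := by
      intro o
      cases o with
      | none => exact Or.inl rfl
      | some i => exact Or.inr ⟨i, rfl⟩
    exact hb _ (mem a) _ (mem b) _ (mem c) _ (mem e)
  · rintro ⟨ha, hb⟩
    refine ⟨ha, ?_⟩
    have mem : ∀ z ∈ insert (0 : Eu d) (range x), ∃ o : Option (Fin k), (o.elim 0 x : Eu d) = z := by
      rintro z (rfl | ⟨i, rfl⟩)
      · exact ⟨none, rfl⟩
      · exact ⟨some i, rfl⟩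
    intro a ha b hb' c hc e he
    obtain ⟨oa, rfl⟩ := mem a ha
    obtain ⟨ob, rfl⟩ := mem b hb'
    obtain ⟨oc, rfl⟩ := mem c hc
    obtain ⟨oe, rfl⟩ := mem e he
    exact hb oa ob oc oe

end Pool.Agent.Lib.MP_5349a4_pr.H77
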