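import Pool.Agent.Lib.MP_5349a4_pr.M.H77.StageDet

/-!
# Transfer to three processes and the strong Markov step for the module STAGE
-/

set_option autoImplicit false
open MeasureTheory Set
open scoped ENNReal NNReal

namespace Pool.Agent.Lib.MP_5349a4_pr.H77

variable {d : ℕ}

/-- triples of tuples -/
abbrev T3 (d : ℕ) : Type := Cfg (Eu d) × Cfg (Eu d) × Cfg (Eu d)

/-- union of three configurations -/
def un3 (q : Cfg (Eu d) × Cfg (Eu d) × Cfg (Eu d)) : Set (Eu d) := pt q.1 ∪ pt q.2.1 ∪ pt q.2.2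

theorem un3_finite (q : Cfg (Eu d) × Cfg (Eu d) × Cfg (Eu d)) : (un3 q).Finite :=
  ((pt_finite _).union (pt_finite _)).union (pt_finite _)

theorem exists_uni (hMOPS : MOpsStatement) :
    ∃ uni : Cfg (Eu d) × Cfg (Eu d) × Cfg (Eu d) → Cfg (Eu d), Measurable uni ∧
      ∀ q, pt (uni q) = un3 q := by
  obtain ⟨un, hun, hun'⟩ := hMOPS.1 (Eu d)
  refine ⟨fun q => un (un (q.1, q.2.1), q.2.2), by fun_prop, fun q => ?_⟩
  rw [hun', hun']
  rfl

theorem meas_un3 (hMOPS : MOpsStatement) {A : Set (Eu d) → Prop} (hA : ME A) :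
    MeasurableSet {q : Cfg (Eu d) × Cfg (Eu d) × Cfg (Eu d) | A (un3 q)} := by
  obtain ⟨uni, hm, hu⟩ := exists_uni (d := d) hMOPS
  have := hm hA
  convert this using 1
  ext q
  simp only [Set.mem_ofPred_eq, mem_preimage, hu]

/-- law of the union of three independent processes -/
theorem transfer (hPROB : ProbStatement) (hSUPER : SuperStatement) (hMOPS : MOpsStatement)
    (ρn ρg ρs : Measure (Eu d)) [IsFiniteMeasure ρn] [IsFiniteMeasure ρg] [IsFiniteMeasure ρs]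
    {A : Set (Eu d) → Prop} (hA : ME A) :
    PL (ρn + ρg + ρs) {ω | A (pt ω)} = ((PL ρn).prod ((PL ρg).prod (PL ρs))) {q | A (un3 q)} := by
  have := (hPROB _ ρn).1
  have := (hPROB _ ρg).1
  have := (hPROB _ ρs).1
  obtain ⟨un, hun, hun'⟩ := hMOPS.1 (Eu d)
  have hf : CM (fun P : Set (Eu d) => ind (A P)) := measurable_ind hA
  have hg : CM (fun P : Set (Eu d) => ∫⁻ ω', ind (A (P ∪ pt ω')) ∂PL ρs) := by
    have h1 : Measurable fun q : Cfg (Eu d) × Cfg (Eu d) => ind (A (pt q.1 ∪ pt q.2)) := by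
      have : (fun q : Cfg (Eu d) × Cfg (Eu d) => ind (A (pt q.1 ∪ pt q.2)))
          = (fun ω => ind (A (pt ω))) ∘ un := by
        funext q
        simp only [Function.comp, hun']
      rw [this]
      exact Measurable.comp hf hun
    exact h1.lintegral_prod_right'
  have hS := meas_un3 hMOPS hA
  rw [← lintegral_ind hA, hSUPER _ (ρn + ρg) ρs _ hf, hSUPER _ ρn ρg _ hg, ← lintegral_ind hS,
    lintegral_prod _ (measurable_ind hS).aemeasurable]
  congr 1
  funext a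
  have hS' : MeasurableSet {q : Cfg (Eu d) × Cfg (Eu d) | A (un3 (a, q))} :=
    measurable_prodMk_left hS
  rw [lintegral_prod _ (measurable_ind hS').aemeasurable]
  rfl

/-- measurable event of the static lemma -/
theorem meas_F (hMOPS : MOpsStatement) (hMSUM : MSumStatement) (hCONM : ConMStatement)
    (hCLB : ClbStatement) (hINVM : InvMStatement) (r r' : ℝ) (m : ℕ) (q₀ : ℝ≥0∞)
    {H : Set (Eu d) → Prop} (hH : ME H) :
    MeasurableSet {q : Cfg (Eu d) × Cfg (Eu d) × Cfg (Eu d) |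
      H (pt q.1) ∧ volume (nbd r (LLs r (pt q.2.1) (pt q.2.2) ∅) ∩ nbd r' (inv (pt q.1) 0 m)) < q₀} := by
  have h1 : MeasurableSet {q : (Cfg (Eu d) × Cfg (Eu d) × Cfg (Eu d)) × Eu d |
      q.2 ∈ nbd r (LLs r (pt q.1.2.1) (pt q.1.2.2) ∅) ∩ nbd r' (inv (pt q.1.1) 0 m)} := by
    have hm1 : Measurable fun q : (Cfg (Eu d) × Cfg (Eu d) × Cfg (Eu d)) × Eu d =>
        ((q.2, q.1.2.1, q.1.2.2) : Eu d × Cfg (Eu d) × Cfg (Eu d)) := by fun_prop
    have hm2 : Measurable fun q : (Cfg (Eu d) × Cfg (Eu d) × Cfg (Eu d)) × Eu d =>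
        ((q.2, q.1.1) : Eu d × Cfg (Eu d)) := by fun_prop
    exact (hm1 (meas_LL hMOPS hMSUM hCONM hCLB r)).inter
      (hm2 (meas_nbd_inv hMSUM hINVM r' m))
  have h2 : MeasurableSet {q : Cfg (Eu d) × Cfg (Eu d) × Cfg (Eu d) | H (pt q.1)} :=
    measurable_fst hH
  exact h2.inter (measurableSet_lt (measurable_measure_prodMk_left h1) measurable_const)

theorem LLs_diff (r : ℝ) (N G W : Set (Eu d)) : LLs r (N \ W) (G \ W) ∅ = LLs r N G W := by
  unfold LLs
  rw [sdiff_empty, sdiff_empty, union_sdiff_distrib]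

theorem LLs_sub (hCLB : ClbStatement) (r : ℝ) (N G W : Set (Eu d)) :
    LLs r N G W ⊆ LLs r N G ∅ := by
  rintro y ⟨hy, p, hp, hc⟩
  refine ⟨?_, p, ?_, ?_⟩
  · rw [sdiff_empty]; exact hy.1
  · rw [sdiff_empty]; exact hp.1
  · rw [sdiff_empty]
    exact (hCLB (Eu d) (ad r) ((N ∪ G) \ W) (N ∪ G) y p).1 sdiff_subset hc

theorem nbd_mono (r : ℝ) {K K' : Set (Eu d)} (h : K ⊆ K') : nbd r K ⊆ nbd r K' := by
  rintro e ⟨u, hu, hd⟩
  exact ⟨u, h hu, hd⟩

/-- the strong Markov step -/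
theorem smp_step (hPROB : ProbStatement) (hMRESTR : MRestrStatement) (hMOPS : MOpsStatement)
    (hMSUM : MSumStatement) (hCONM : ConMStatement) (hCLB : ClbStatement) (hINVD : InvDStatement)
    (hINVM : InvMStatement) (hSMP3 : Smp3Statement)
    (ρn ρg ρs : Measure (Eu d)) [IsFiniteMeasure ρn] [IsFiniteMeasure ρg] [IsFiniteMeasure ρs]
    [NullSingletonClass ρn] [NullSingletonClass ρg] [NullSingletonClass ρs]
    (th : ℕ → ℝ) (m : ℕ) (N V : ℝ≥0∞) (s r r' : ℝ) (q₀ β : ℝ≥0∞) (U : Set (Eu d))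
    (hU : ∀ P : Set (Eu d), P.Finite → HH th m N V s P → nbd r' (inv P 0 m) ⊆ U)
    (hβ : ∀ P : Set (Eu d), P.Finite → HH th m N V s P → MeasurableSet (wet P 0 m) →
      ((PL ρn).prod (PL ρg)) {q | volume (nbd r (LLs r (pt q.1) (pt q.2) (wet P 0 m)) ∩
        nbd r' (inv P 0 m)) < q₀} ≤ β) :
    ((PL ρn).prod ((PL ρg).prod (PL ρs))) {q | HH th m N V s (un3 q) ∧
      volume (nbd r (LLs r (pt q.1) (pt q.2.1) ∅) ∩ nbd r' (inv (un3 q) 0 m) ∩ U) < q₀}
      ≤ β * ((PL ρn).prod ((PL ρg).prod (PL ρs))) {q | HH th m N V s (un3 q)} := by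
  have := (hPROB _ ρn).1
  have := (hPROB _ ρg).1
  have := (hPROB _ ρs).1
  have hME := me_HH (d := d) hMSUM hINVM th m N V s
  obtain ⟨uni, hum, hu⟩ := exists_uni (d := d) hMOPS
  -- restriction maps
  have hA1 : MeasurableSet {p : T3 d × Eu d | p.2 ∈ wet (un3 p.1) 0 m} := by
    have hm : Measurable fun p : T3 d × Eu d => ((p.2, uni p.1) : Eu d × Cfg (Eu d)) := by fun_prop
    have := hm (meas_wet hINVM m)
    convert this using 1
    ext p
    simp only [Set.mem_ofPred_eq, mem_preimage, hu]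
  obtain ⟨rin, hrin, hrin'⟩ := hMRESTR (T3 d) (Eu d) _ hA1
  obtain ⟨rout, hrout, hrout'⟩ := hMRESTR (T3 d) (Eu d) _ hA1.compl
  have prin : ∀ q : T3 d, pt (rin (q, uni q)) = un3 q ∩ wet (un3 q) 0 m := by
    intro q
    rw [hrin' q (uni q), hu]
    rfl
  have prout : ∀ (q : T3 d) (a : Cfg (Eu d)), pt (rout (q, a)) = pt a \ wet (un3 q) 0 m := by
    intro q a
    rw [hrout' q a]
    rfl
  -- the event
  set F : Set (Eu d) → Set (Eu d) → Set (Eu d) → ℝ≥0∞ := fun A B C =>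
    ind (HH th m N V s A ∧ volume (nbd r (LLs r B C ∅) ∩ nbd r' (inv A 0 m)) < q₀) with hF
  have hFm := meas_F hMOPS hMSUM hCONM hCLB hINVM r r' m q₀ hME
  have hFm' : Measurable fun q : T3 d => F (pt q.1) (pt q.2.1) (pt q.2.2) := measurable_ind hFm
  -- congruence of H
  have hcong : ∀ P : Set (Eu d), P.Finite →
      (HH th m N V s (P ∩ wet P 0 m) ↔ HH th m N V s P) ∧
      inv (P ∩ wet P 0 m) 0 m = inv P 0 m := by
    intro P hP
    have h3 := (hINVD d P (P ∩ wet P 0 m) 0 (lf_finite hP)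
      (lf_finite (hP.subset inter_subset_left))).2.2.1 m (by
        rw [inter_assoc, inter_self])
    exact ⟨HH_congr h3.1 h3.2.1 h3.2.2, h3.1 m le_rfl⟩
  -- S2
  have hmap : Measurable fun q : T3 d =>
      ((rin (q, uni q), rout (q, q.1), rout (q, q.2.1)) : T3 d) := by fun_prop
  have hS2 : MeasurableSet {q : T3 d | HH th m N V s (un3 q ∩ wet (un3 q) 0 m) ∧
      volume (nbd r (LLs r (pt q.1 \ wet (un3 q) 0 m) (pt q.2.1 \ wet (un3 q) 0 m) ∅) ∩
        nbd r' (inv (un3 q ∩ wet (un3 q) 0 m) 0 m)) < q₀} := by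
    have := hmap hFm
    convert this using 1
    ext q
    simp only [Set.mem_ofPred_eq, mem_preimage, prin, prout]
  have hsub : {q : T3 d | HH th m N V s (un3 q) ∧
      volume (nbd r (LLs r (pt q.1) (pt q.2.1) ∅) ∩ nbd r' (inv (un3 q) 0 m) ∩ U) < q₀} ⊆
      {q : T3 d | HH th m N V s (un3 q ∩ wet (un3 q) 0 m) ∧
      volume (nbd r (LLs r (pt q.1 \ wet (un3 q) 0 m) (pt q.2.1 \ wet (un3 q) 0 m) ∅) ∩
        nbd r' (inv (un3 q ∩ wet (un3 q) 0 m) 0 m)) < q₀} := by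
    rintro q ⟨h1, h2⟩
    obtain ⟨h3, h4⟩ := hcong (un3 q) (un3_finite q)
    refine ⟨h3.2 h1, lt_of_le_of_lt (measure_mono ?_) h2⟩
    rw [h4, LLs_diff]
    rintro e ⟨he1, he2⟩
    exact ⟨⟨nbd_mono r (LLs_sub hCLB r _ _ _) he1, he2⟩, hU _ (un3_finite q) h1 he2⟩
  refine (measure_mono hsub).trans ?_
  rw [← lintegral_ind hS2, lintegral_prod _ (measurable_ind hS2).aemeasurable]
  have e1 : ∀ a : Cfg (Eu d), ∫⁻ q : Cfg (Eu d) × Cfg (Eu d),
      ind (HH th m N V s (un3 (a, q) ∩ wet (un3 (a, q)) 0 m) ∧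
      volume (nbd r (LLs r (pt a \ wet (un3 (a, q)) 0 m) (pt q.1 \ wet (un3 (a, q)) 0 m) ∅) ∩
        nbd r' (inv (un3 (a, q) ∩ wet (un3 (a, q)) 0 m) 0 m)) < q₀) ∂(PL ρg).prod (PL ρs)
      = ∫⁻ b, ∫⁻ c, F ((pt a ∪ pt b ∪ pt c) ∩ wet (pt a ∪ pt b ∪ pt c) 0 m)
        (pt a \ wet (pt a ∪ pt b ∪ pt c) 0 m) (pt b \ wet (pt a ∪ pt b ∪ pt c) 0 m)
          ∂PL ρs ∂PL ρg := by
    intro a
    have hS2' : MeasurableSet {q : Cfg (Eu d) × Cfg (Eu d) |
        HH th m N V s (un3 (a, q) ∩ wet (un3 (a, q)) 0 m) ∧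
        volume (nbd r (LLs r (pt a \ wet (un3 (a, q)) 0 m) (pt q.1 \ wet (un3 (a, q)) 0 m) ∅) ∩
        nbd r' (inv (un3 (a, q) ∩ wet (un3 (a, q)) 0 m) 0 m)) < q₀} :=
      measurable_prodMk_left (x := a) hS2
    rw [lintegral_prod _ (measurable_ind hS2').aemeasurable]
    rfl
  have e2 : ∫⁻ a, ∫⁻ q : Cfg (Eu d) × Cfg (Eu d),
      ind (HH th m N V s (un3 (a, q) ∩ wet (un3 (a, q)) 0 m) ∧
      volume (nbd r (LLs r (pt a \ wet (un3 (a, q)) 0 m) (pt q.1 \ wet (un3 (a, q)) 0 m) ∅) ∩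
        nbd r' (inv (un3 (a, q) ∩ wet (un3 (a, q)) 0 m) 0 m)) < q₀)
          ∂(PL ρg).prod (PL ρs) ∂PL ρn
      = ∫⁻ a, ∫⁻ b, ∫⁻ c, F ((pt a ∪ pt b ∪ pt c) ∩ wet (pt a ∪ pt b ∪ pt c) 0 m)
        (pt a \ wet (pt a ∪ pt b ∪ pt c) 0 m) (pt b \ wet (pt a ∪ pt b ∪ pt c) 0 m)
          ∂PL ρs ∂PL ρg ∂PL ρn := by
    congr 1
    funext a
    exact e1 a
  refine (le_of_eq e2).trans ?_
  rw [hSMP3 d ρn ρg ρs (fun P => wet P 0 m) F ((hINVM d m).2.2.2.2.2 0) hFm']
  -- the right side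
  have hS3 := meas_un3 hMOPS hME
  have e3 : ((PL ρn).prod ((PL ρg).prod (PL ρs))) {q | HH th m N V s (un3 q)}
      = ∫⁻ a, ∫⁻ b, ∫⁻ c, ind (HH th m N V s (un3 (a, b, c))) ∂PL ρs ∂PL ρg ∂PL ρn := by
    rw [← lintegral_ind hS3, lintegral_prod _ (measurable_ind hS3).aemeasurable]
    congr 1
    funext a
    have hS3' : MeasurableSet {q : Cfg (Eu d) × Cfg (Eu d) | HH th m N V s (un3 (a, q))} :=
      measurable_prodMk_left (x := a) hS3
    rw [lintegral_prod _ (measurable_ind hS3').aemeasurable]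
  -- bound of the inner integral
  have inner : ∀ a b c : Cfg (Eu d),
      ∫⁻ a', ∫⁻ b', F ((pt a ∪ pt b ∪ pt c) ∩ wet (pt a ∪ pt b ∪ pt c) 0 m)
        (pt a' \ wet (pt a ∪ pt b ∪ pt c) 0 m) (pt b' \ wet (pt a ∪ pt b ∪ pt c) 0 m)
          ∂PL ρg ∂PL ρn ≤ β * ind (HH th m N V s (un3 (a, b, c))) := by
    intro a b c
    obtain ⟨h3, h4⟩ := hcong (un3 (a, b, c)) (un3_finite _)
    have hun : pt a ∪ pt b ∪ pt c = un3 (a, b, c) := rfl
    rw [hun]
    by_cases hH : HH th m N V s (un3 (a, b, c))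
    · rw [ind_of hH, mul_one]
      have hW : MeasurableSet (wet (un3 (a, b, c)) 0 m) :=
        measurable_prodMk_left (x := ((a, b, c) : T3 d)) hA1
      refine le_trans (le_of_eq ?_) (hβ _ (un3_finite _) hH hW)
      have hm : Measurable fun q : Cfg (Eu d) × Cfg (Eu d) =>
          ((rin ((a, b, c), uni (a, b, c)), rout ((a, b, c), q.1), rout ((a, b, c), q.2)) : T3 d) := by
        fun_prop
      have hS4 : MeasurableSet {q : Cfg (Eu d) × Cfg (Eu d) |
          volume (nbd r (LLs r (pt q.1) (pt q.2) (wet (un3 (a, b, c)) 0 m)) ∩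
            nbd r' (inv (un3 (a, b, c)) 0 m)) < q₀} := by
        have := hm hFm
        convert this using 1
        ext q
        simp only [Set.mem_ofPred_eq, mem_preimage, prin, prout, LLs_diff, h4]
        constructor
        · intro h; exact ⟨h3.2 hH, h⟩
        · intro h; exact h.2
      rw [← lintegral_ind hS4, lintegral_prod _ (measurable_ind hS4).aemeasurable]
      congr 1
      funext a'
      congr 1
      funext b'
      rw [hF]
      apply ind_congr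
      rw [LLs_diff, h4]
      constructor
      · intro h; exact h.2
      · intro h; exact ⟨h3.2 hH, h⟩
    · have : ∀ a' b' : Cfg (Eu d), F (un3 (a, b, c) ∩ wet (un3 (a, b, c)) 0 m)
          (pt a' \ wet (un3 (a, b, c)) 0 m) (pt b' \ wet (un3 (a, b, c)) 0 m) = 0 := by
        intro a' b'
        apply ind_not
        rintro ⟨h, _⟩
        exact hH (h3.1 h)
      simp only [this, lintegral_zero]
      exact zero_le
  rw [e3]
  calc _ ≤ ∫⁻ a, ∫⁻ b, ∫⁻ c, β * ind (HH th m N V s (un3 (a, b, c))) ∂PL ρs ∂PL ρg ∂PL ρn :=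
        lintegral_mono fun a => lintegral_mono fun b => lintegral_mono fun c => inner a b c
    _ = _ := by
        have k1 : ∀ a b : Cfg (Eu d), Measurable fun c : Cfg (Eu d) =>
            ind (HH th m N V s (un3 (a, b, c))) := by
          intro a b
          exact measurable_ind (measurable_prodMk_left (x := b) (measurable_prodMk_left (x := a) hS3))
        have k2 : ∀ a : Cfg (Eu d), Measurable fun b : Cfg (Eu d) =>
            ∫⁻ c, ind (HH th m N V s (un3 (a, b, c))) ∂PL ρs := by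
          intro a
          exact (measurable_ind (measurable_prodMk_left (x := a) hS3)).lintegral_prod_right'
        have k3 : Measurable fun a : Cfg (Eu d) =>
            ∫⁻ b, ∫⁻ c, ind (HH th m N V s (un3 (a, b, c))) ∂PL ρs ∂PL ρg := by
          have hmm : Measurable fun q : (Cfg (Eu d) × Cfg (Eu d)) × Cfg (Eu d) =>
              ((q.1.1, q.1.2, q.2) : T3 d) := by fun_prop
          have : Measurable fun q : Cfg (Eu d) × Cfg (Eu d) =>
              ∫⁻ c, ind (HH th m N V s (un3 (q.1, q.2, c))) ∂PL ρs :=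
            (measurable_ind (hmm hS3)).lintegral_prod_right'
          exact this.lintegral_prod_right'
        simp_rw [lintegral_const_mul β (k1 _ _)]
        simp_rw [lintegral_const_mul β (k2 _)]
        rw [lintegral_const_mul β k3]

end Pool.Agent.Lib.MP_5349a4_pr.H77
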